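import Pool.Agent.K4H43.IW.Stm

/-!
# Characters of prime conductor

The action of decomposition groups on roots of unity, characters of order `ℓ` modulo a prime
`q = 1` modulo `2ℓ`, the cyclotomic character.
-/

set_option autoImplicit false

namespace Pool.Agent.K4H83.IWChar

open Subgroup Module IntermediateField Pool.Agent.Q60.MU Pool.Agent.K4H24.IW Pool.Agent.K4H43.IW
open scoped Pointwise

/-- ring endomorphisms of a field of characteristic `s` act on roots of unity of order prime to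
`s` as powers of the Frobenius -/
theorem frob_power {F : Type*} [Field F] {s : ℕ} [Fact s.Prime] [CharP F s] (τ : F →+* F) {z : F}
    {n : ℕ} (hz : z ^ n = 1) (hcop : s.Coprime n) : ∃ k : ℕ, τ z = z ^ s ^ k := by
  classical
  set f := n.totient with hf
  have hzf : z ^ s ^ f = z := by
    have h1 : s ^ f ≡ 1 [MOD n] := Nat.ModEq.pow_totient hcop
    have h2 : z ^ s ^ f = z ^ 1 := by
      rw [← pow_mod_orderOf z (s ^ f), ← pow_mod_orderOf z 1]
      congr 1
      exact h1.of_dvd (orderOf_dvd_of_pow_eq_one hz)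
    rw [h2, pow_one]
  set g : ℕ → Polynomial F := fun k => Polynomial.X - Polynomial.C (z ^ s ^ k) with hg
  set R : Polynomial F := ∏ k ∈ Finset.range (f + 1), g k with hR
  -- the polynomial over the range of length `f`
  set R' : Polynomial F := ∏ k ∈ Finset.range f, g k with hR'
  have hmap : R'.map (frobenius F s) = R' := by
    have h1 : R'.map (frobenius F s) = ∏ k ∈ Finset.range f, g (k + 1) := by
      rw [hR', Polynomial.map_prod]
      refine Finset.prod_congr rfl fun k _ => ?_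
      rw [hg]
      simp only [Polynomial.map_sub, Polynomial.map_X, Polynomial.map_C, frobenius_def]
      rw [← pow_mul, ← pow_succ]
    have h2 : g 0 * ∏ k ∈ Finset.range f, g (k + 1) = g f * ∏ k ∈ Finset.range f, g k := by
      rw [mul_comm, ← Finset.prod_range_succ' g f, Finset.prod_range_succ, mul_comm]
    have h3 : g f = g 0 := by
      rw [hg]
      simp only [pow_zero, pow_one, hzf]
    rw [h3] at h2
    rw [h1]
    exact mul_left_cancel₀ (Polynomial.X_sub_C_ne_zero _) h2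
  have hcoef : ∀ i, τ (R'.coeff i) = R'.coeff i := by
    intro i
    have h1 : (R'.coeff i) ^ s = R'.coeff i := by
      have h2 := congrArg (fun P => Polynomial.coeff P i) hmap
      simp only [Polynomial.coeff_map, frobenius_def] at h2
      exact h2
    have h2 : R'.coeff i ∈ (⊥ : Subfield F) := (Subfield.mem_bot_iff_pow_eq_self F s).2 h1
    have h3 : (⊥ : Subfield F) ≤ τ.eqLocusField (RingHom.id F) := bot_le
    exact h3 h2
  have hτ : R'.map τ = R' := by
    ext i
    rw [Polynomial.coeff_map, hcoef]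
  by_cases hf0 : f = 0
  · -- n = 0
    have hn : n = 0 := Nat.totient_eq_zero.1 hf0
    subst hn
    have hs1 : s = 1 := by simpa using hcop
    exact absurd hs1 (Fact.out : s.Prime).ne_one
  have hroot : R'.eval z = 0 := by
    rw [hR', Polynomial.eval_prod]
    refine Finset.prod_eq_zero (Finset.mem_range.2 (Nat.pos_of_ne_zero hf0)) ?_
    rw [hg]
    simp
  have hroot2 : R'.eval (τ z) = 0 := by
    have h1 := Polynomial.eval_map_apply (f := τ) (p := R') z
    rw [hτ, hroot, map_zero] at h1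
    exact h1
  rw [hR', Polynomial.eval_prod, Finset.prod_eq_zero_iff] at hroot2
  obtain ⟨k, -, hk⟩ := hroot2
  refine ⟨k, ?_⟩
  rw [hg] at hk
  simpa [sub_eq_zero] using hk

/-- two roots of unity of order prime to the residue characteristic which are congruent are equal -/
theorem eq_of_sub_mem (A : ValuationSubring Qb) {n s : ℕ} (hn : n ≠ 0) (hs : (s : Qb) ∈ A.nonunits)
    (hcop : s.Coprime n) {x y : Qb} (hx : x ^ n = 1) (hy : y ^ n = 1) (h : x - y ∈ A.nonunits) :
    x = y := by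
  by_contra hxy
  have hy0 : y ≠ 0 := by
    rintro rfl
    rw [zero_pow hn] at hy
    exact zero_ne_one hy
  set w := x * y⁻¹ with hw
  have hwn : w ^ n = 1 := by rw [hw, mul_pow, hx, inv_pow, hy, inv_one, mul_one]
  have hw1 : w ≠ 1 := by
    intro h1
    rw [hw, mul_inv_eq_one₀ hy0] at h1
    exact hxy h1
  have hi : IsIntegral ℤ w := integral_of_pow_eq_one hn hwn
  have hyi : IsIntegral ℤ y⁻¹ := integral_of_pow_eq_one hn (by rw [inv_pow, hy, inv_one])
  have hwA : w - 1 ∈ A.nonunits := by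
    have h1 : w - 1 = (x - y) * y⁻¹ := by
      rw [hw, sub_mul, mul_inv_cancel₀ hy0]
    rw [h1]
    exact mul_nonunits h (integral_mem A hyi)
  have h5 : ∑ j ∈ Finset.range n, w ^ j = 0 := by
    have h6 := mul_geom_sum w n
    rw [hwn, sub_self] at h6
    exact (mul_eq_zero.1 h6).resolve_left (sub_ne_zero.2 hw1)
  have h6 : (n : Qb) = ∑ j ∈ Finset.range n, -(w ^ j - 1) := by
    rw [Finset.sum_neg_distrib, Finset.sum_sub_distrib, h5]
    simp
  have hnA : (n : Qb) ∈ A.nonunits := by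
    rw [h6]
    exact sum_mem fun j _ => neg_mem (pow_sub_one_mem A hi hwA j)
  obtain ⟨a, b, hab⟩ := Int.isCoprime_iff_gcd_eq_one.2 (by exact_mod_cast hcop : Int.gcd s n = 1)
  have h7 : (1 : Qb) ∈ A.nonunits := by
    have h8 : (1 : Qb) = (s : Qb) * (a : Qb) + (n : Qb) * (b : Qb) := by
      have h9 := congrArg (Int.cast : ℤ → Qb) hab
      push_cast at h9
      linear_combination -h9
    rw [h8]
    exact add_mem (mul_nonunits hs (intCast_mem A a)) (mul_nonunits hnA (intCast_mem A b))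
  rw [ValuationSubring.mem_nonunits_iff, map_one] at h7
  exact lt_irrefl _ h7

/-- decomposition groups act on roots of unity of order prime to the residue characteristic `s` by
powers of `s` -/
theorem decomp_power (A : ValuationSubring Qb) {n s : ℕ} (hn : n ≠ 0) (hsp : s.Prime)
    (hs : (s : Qb) ∈ A.nonunits) (hcop : s.Coprime n) {ζ : Qb} (hζ : ζ ^ n = 1) {σ : Gal(Qb/ℚ)}
    (hσ : σ • A = A) : ∃ k : ℕ, σ ζ = ζ ^ s ^ k := by
  have : Fact s.Prime := ⟨hsp⟩
  have hmem : ∀ x ∈ A, σ x ∈ A := by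
    intro x hx
    have h6 := ValuationSubring.smul_mem_pointwise_smul σ x A hx
    rwa [hσ] at h6
  have hnon : ∀ x ∈ A.nonunits, σ x ∈ A.nonunits := by
    intro x hx
    rw [ValuationSubring.mem_nonunits_iff_or] at hx ⊢
    rcases hx with h | h
    · left
      rw [h, map_zero]
    · right
      intro h7
      apply h
      have h8 : (σ x)⁻¹ = σ • x⁻¹ := by
        show (σ x)⁻¹ = σ x⁻¹
        rw [map_inv₀]
      rw [h8, ← hσ] at h7
      exact ValuationSubring.smul_mem_pointwise_smul_iff.1 h7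
  let τ : A →+* A := (σ : Qb →+* Qb).restrict A A hmem
  have hτ : ∀ x : A, ((τ x : A) : Qb) = σ x := fun x => rfl
  let f : A →+* IsLocalRing.ResidueField A := (IsLocalRing.residue A).comp τ
  have hf : IsLocalHom f := by
    constructor
    intro a ha
    by_contra hna
    have h1 : (a : Qb) ∈ A.nonunits := ValuationSubring.coe_mem_nonunits_iff.2 hna
    have h2 : ((τ a : A) : Qb) ∈ A.nonunits := by
      rw [hτ]
      exact hnon _ h1
    have h3 : τ a ∈ nonunits A := ValuationSubring.coe_mem_nonunits_iff.1 h2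
    have h4 : f a = 0 := (IsLocalRing.residue_eq_zero_iff _).2 h3
    rw [h4] at ha
    exact not_isUnit_zero ha
  let g : IsLocalRing.ResidueField A →+* IsLocalRing.ResidueField A :=
    IsLocalRing.ResidueField.lift f
  have hg : ∀ a : A, g (IsLocalRing.residue A a) = IsLocalRing.residue A (τ a) := fun a => rfl
  have hchar : CharP (IsLocalRing.ResidueField A) s := by
    refine (CharP.charP_iff_prime_eq_zero hsp).2 ?_
    have h1 : ((s : A) : Qb) ∈ A.nonunits := by
      have h2 : ((s : A) : Qb) = (s : Qb) := rfl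
      rw [h2]
      exact hs
    have h2 := (IsLocalRing.residue_eq_zero_iff _).2 (ValuationSubring.coe_mem_nonunits_iff.1 h1)
    rwa [map_natCast] at h2
  have hζA : ζ ∈ A := integral_mem A (integral_of_pow_eq_one hn hζ)
  have hz : (IsLocalRing.residue A ⟨ζ, hζA⟩) ^ n = 1 := by
    rw [← map_pow]
    have h1 : (⟨ζ, hζA⟩ : A) ^ n = 1 := Subtype.ext hζ
    rw [h1, map_one]
  obtain ⟨k, hk⟩ := frob_power g hz hcop
  refine ⟨k, ?_⟩
  rw [hg, ← map_pow, ← sub_eq_zero, ← map_sub, IsLocalRing.residue_eq_zero_iff] at hk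
  have h2 := ValuationSubring.coe_mem_nonunits_iff.2 hk
  refine eq_of_sub_mem A hn hs hcop ?_ ?_ h2
  · rw [← map_pow, hζ, map_one]
  · rw [← pow_mul, mul_comm, pow_mul, hζ, one_pow]

/-- a character of order `ℓ` modulo `q`, trivial at `-1` -/
theorem exists_psi {ℓ q : ℕ} (hℓ : ℓ.Prime) (hq : q.Prime) (h : q ≡ 1 [MOD 2 * ℓ]) :
    ∃ ψ : (ZMod q)ˣ →* Multiplicative (ZMod ℓ), ψ (-1) = 1 ∧ ∃ u, ψ u ≠ 1 := by
  have : Fact q.Prime := ⟨hq⟩
  have : Fact ℓ.Prime := ⟨hℓ⟩
  have hcard : Nat.card (ZMod q)ˣ = q - 1 := by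
    rw [Nat.card_eq_fintype_card, ZMod.card_units]
  have hdvd : 2 * ℓ ∣ Nat.card (ZMod q)ˣ := by
    rw [hcard]
    exact (Nat.modEq_iff_dvd' hq.one_le).1 h.symm
  have hd : ℓ ∣ Nat.card (ZMod q)ˣ := (dvd_mul_left ℓ 2).trans hdvd
  let e : (ZMod q)ˣ ≃* Multiplicative (ZMod (Nat.card (ZMod q)ˣ)) :=
    (zmodCyclicMulEquiv (inferInstance : IsCyclic (ZMod q)ˣ)).symm
  let c : Multiplicative (ZMod (Nat.card (ZMod q)ˣ)) →* Multiplicative (ZMod ℓ) :=
    AddMonoidHom.toMultiplicative (ZMod.castHom hd (ZMod ℓ)).toAddMonoidHom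
  have hc : ∀ a : ZMod (Nat.card (ZMod q)ˣ),
      c (Multiplicative.ofAdd a) = Multiplicative.ofAdd (ZMod.castHom hd (ZMod ℓ) a) := fun a => rfl
  refine ⟨c.comp e.toMonoidHom, ?_, e.symm (Multiplicative.ofAdd 1), ?_⟩
  · show c (e (-1)) = 1
    obtain ⟨a, ha⟩ : ∃ a : ZMod (Nat.card (ZMod q)ˣ), e (-1) = Multiplicative.ofAdd a := ⟨_, rfl⟩
    rw [ha, hc]
    have h1 : a + a = 0 := by
      have h2 : e (-1) * e (-1) = 1 := by
        rw [← map_mul, neg_mul_neg, one_mul, map_one]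
      rw [ha] at h2
      exact h2
    have hne : NeZero (Nat.card (ZMod q)ˣ) := ⟨Nat.card_pos.ne'⟩
    have h2 : ((2 * a.val : ℕ) : ZMod (Nat.card (ZMod q)ˣ)) = 0 := by
      rw [Nat.cast_mul, ZMod.natCast_zmod_val, Nat.cast_ofNat, two_mul, h1]
    have h3 : 2 * ℓ ∣ 2 * a.val := hdvd.trans ((ZMod.natCast_eq_zero_iff _ _).1 h2)
    have h4 : ℓ ∣ a.val := Nat.dvd_of_mul_dvd_mul_left (by norm_num) h3
    have h5 : ZMod.castHom hd (ZMod ℓ) a = 0 := by
      rw [← ZMod.natCast_zmod_val a, map_natCast]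
      exact (ZMod.natCast_eq_zero_iff _ _).2 h4
    rw [h5]
    rfl
  · show c (e (e.symm _)) ≠ 1
    rw [MulEquiv.apply_symm_apply, hc, map_one]
    intro h1
    exact one_ne_zero (α := ZMod ℓ) (Multiplicative.ofAdd.injective h1)

/-- the cyclotomic character modulo `n` -/
theorem exists_kappa (n : ℕ) (hn : n ≠ 0) : ∃ κ : Gal(Qb/ℚ) →* (ZMod n)ˣ,
    ∀ σ (x : Qb), x ^ n = 1 → σ x = x ^ (κ σ : ZMod n).val := by
  have : NeZero n := ⟨hn⟩
  have hcl : IsAlgClosed Qb := AlgebraicClosure.isAlgClosed ℚ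
  have : NeZero (n : Qb) := ⟨by exact_mod_cast hn⟩
  obtain ⟨ζ, hζ⟩ := HasEnoughRootsOfUnity.exists_primitiveRoot Qb n
  refine ⟨hζ.autToPow ℚ, fun σ x hx => ?_⟩
  obtain ⟨i, -, rfl⟩ := hζ.eq_pow_of_pow_eq_one hx
  rw [map_pow, ← hζ.autToPow_spec ℚ σ, ← pow_mul, ← pow_mul, mul_comm]

/-- uniqueness -/
theorem kappa_eq {n : ℕ} (hn : n ≠ 0) {κ : Gal(Qb/ℚ) →* (ZMod n)ˣ}
    (hκ : ∀ σ (x : Qb), x ^ n = 1 → σ x = x ^ (κ σ : ZMod n).val) {ζ : Qb}
    (hζ : IsPrimitiveRoot ζ n) {σ : Gal(Qb/ℚ)} {a : ℕ} (h : σ ζ = ζ ^ a) :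
    (κ σ : ZMod n) = a := by
  have : NeZero n := ⟨hn⟩
  have h1 := hκ σ ζ hζ.pow_eq_one
  rw [h] at h1
  have h2 : a ≡ (κ σ : ZMod n).val [MOD n] := by
    have h3 : ζ ^ (a % n) = ζ ^ (κ σ : ZMod n).val := by
      rw [← h1]
      conv_lhs => rw [hζ.eq_orderOf]
      exact pow_mod_orderOf ζ a
    have h4 := hζ.pow_inj (Nat.mod_lt _ (Nat.pos_of_ne_zero hn)) (ZMod.val_lt _) h3
    rw [Nat.ModEq, h4, Nat.mod_eq_of_lt (ZMod.val_lt _)]
  rw [← ZMod.natCast_zmod_val ((κ σ : (ZMod n)ˣ) : ZMod n)]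
  exact ((ZMod.natCast_eq_natCast_iff _ _ _).2 h2).symm

/-- surjectivity for two primes -/
theorem exists_sigma {n : ℕ} (hn : n ≠ 0) {ζ : Qb} (hζ : IsPrimitiveRoot ζ n) {a : ℕ}
    (ha : a.Coprime n) : ∃ σ : Gal(Qb/ℚ), σ ζ = ζ ^ a := by
  have hcl : IsAlgClosed Qb := AlgebraicClosure.isAlgClosed ℚ
  have h2 : IsAlgClosure ℚ Qb := ⟨hcl, isAlg_Qb⟩
  have h3 : Normal ℚ Qb := inferInstance
  refine isConjRoot_iff_exists_algEquiv.1 ?_
  rw [isConjRoot_def, ← Polynomial.cyclotomic_eq_minpoly_rat hζ (Nat.pos_of_ne_zero hn),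
    ← Polynomial.cyclotomic_eq_minpoly_rat (hζ.pow_of_coprime a ha) (Nat.pos_of_ne_zero hn)]

end Pool.Agent.K4H83.IWChar
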